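import Pool.Agent.R468.MG.Q

/-!
THE LAW OF THE PREPERIOD for the maps `3x+b` on the integers, whatever the number of their cycles.

Author: helper468. Uses the harmonic relation of the level sets (Pool/Agent/R468/GL, MG,
Pool/Agent/H499R2/LT), the sparsity of the periodic points (Pool/Agent/H319R2) and Poisson summation
(Pool/Agent/R468/MF).
-/

set_option autoImplicit false

namespace Pool.Agent.Results.MP_dee342_nt.PreperiodLaw

open Filter Topology

/-- The map `T_{3,b}` on the integers. -/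
def T (b x : ℤ) : ℤ := if x % 2 = 0 then x / 2 else (3 * x + b) / 2

/-- `x` belongs to a cycle of `T_{3,b}` -/
def IsPeriodic (b x : ℤ) : Prop := ∃ p : ℕ, 1 ≤ p ∧ (T b)^[p] x = x

/-- the trajectory of `x` under `T_{3,b}` enters a cycle, and does so for the first time after exactly `k`
steps -/
def HasPreperiod (b x : ℤ) (k : ℕ) : Prop :=
  IsPeriodic b ((T b)^[k] x) ∧ ∀ i < k, ¬ IsPeriodic b ((T b)^[i] x)

/-- the number of the positive integers `n ≤ x` such that `s n` has preperiod `k` under `T_{3,b}` -/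
noncomputable def N (b s : ℤ) (x : ℝ) (k : ℕ) : ℕ :=
  {n : ℕ | 1 ≤ n ∧ (n : ℝ) ≤ x ∧ HasPreperiod b (s * n) k}.ncard

/-- the number of the `r`-tuples of positive integers `n ≤ x` such that all `s n` enter their cycles at
one and the same time -/
noncomputable def Tup (b s : ℤ) (r : ℕ) (x : ℝ) : ℕ :=
  {w : Fin r → ℕ | (∀ i, 1 ≤ w i ∧ (w i : ℝ) ≤ x) ∧ ∃ k : ℕ, ∀ i, HasPreperiod b (s * w i) k}.ncard

/-- the positive integers with the property `P` have the natural density `δ` -/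
def HasDensity (P : ℕ → Prop) (δ : ℝ) : Prop :=
  Tendsto (fun X : ℕ => ({n : ℕ | 1 ≤ n ∧ n ≤ X ∧ P n}.ncard : ℝ) / X) atTop (𝓝 δ)

/-- the constant of the mean value -/
noncomputable def μ : ℝ := 2 / Real.log (4 / 3)

/-- the constant of the variance -/
noncomputable def σ2 : ℝ := 2 * Real.log 3 ^ 2 / Real.log (4 / 3) ^ 3

/-- the number `√(2 π σ2 log x)` -/
noncomputable def S (x : ℝ) : ℝ := Real.sqrt (2 * Real.pi * (σ2 * Real.log x))

/-- the value at `k` of the density of the normal distribution of mean `μ log x` and variance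
`σ2 log x` -/
noncomputable def g (x : ℝ) (k : ℕ) : ℝ :=
  Real.exp (-(((k : ℝ) - μ * Real.log x) ^ 2 / (2 * (σ2 * Real.log x)))) / S x

/-- THE LAW OF THE PREPERIOD. Let `b` be odd and not divisible by `3`, and `s = 1` or `s = -1`; the
number of the cycles of `T_{3,b}` may be finite or infinite. There are `δ`, a function `Ψ` and `M` such
that

* `0 < δ ≤ 1`, and `δ` is the density of the `n` such that the trajectory of `s n` ends in a cycle; for
  the `3x+1` map (`b = 1`) one has `δ = 1` iff this is so for all `n ≥ 1`;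
* `Ψ` is continuous, has period one, lies between `δ (log 3)/2` and `δ (3 log 3)/2`, and its mean is
  `δ`; its maximum is `M`, and `δ ≤ M`;
* LOCAL LIMIT LAW: the number of the `n ≤ x` such that `s n` has preperiod exactly `k` is
  `x g(x, k) (Ψ (log_3 (x / 2^k)) + o(1))`, uniformly for `|k - μ log x| ≤ K √(log x)`;
* this number is at most `A x / √(log x)` for all `k` and `x ≥ 2`, for some `A`;
* the largest of these numbers, over all `k`, is `(M + o(1)) x / √(2 π σ2 log x)`, a number of this size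
  is taken at some `k = μ log x + o(√(log x))`, and all most frequent preperiods `k` satisfy
  `k = μ log x + o(√(log x))`;
* for every `r ≥ 1` the number of the `r`-tuples of positive integers `n ≤ x` such that the `s n` enter
  their cycles at one and the same time is asymptotic to `c_r x^r / (2 π σ2 log x)^((r-1)/2)`, with
  `c_r = (1 / √r) ∫ Ψ^r`. -/
theorem result (b : ℤ) (hb : Odd b) (hb3 : ¬ (3 : ℤ) ∣ b) (s : ℤ) (hs : s = 1 ∨ s = -1) :
    ∃ (δ : ℝ) (Ψ : ℝ → ℝ) (M : ℝ), 0 < δ ∧ δ ≤ 1 ∧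
    HasDensity (fun n => ∃ k : ℕ, HasPreperiod b (s * n) k) δ ∧
    (b = 1 → (δ = 1 ↔ ∀ n : ℕ, 1 ≤ n → ∃ k : ℕ, HasPreperiod b (s * n) k)) ∧
    Continuous Ψ ∧ (∀ u : ℝ, Ψ (u + 1) = Ψ u) ∧
    (∀ u : ℝ, δ * (Real.log 3 / 2) ≤ Ψ u ∧ Ψ u ≤ δ * (3 * Real.log 3 / 2)) ∧
    (∫ u in (0 : ℝ)..1, Ψ u = δ) ∧ (∀ u : ℝ, Ψ u ≤ M) ∧ (∃ u : ℝ, Ψ u = M) ∧ δ ≤ M ∧
    (∀ K ε : ℝ, 0 < ε → ∃ X₀ : ℝ, ∀ x : ℝ, X₀ ≤ x → ∀ k : ℕ,
      |(k : ℝ) - μ * Real.log x| ≤ K * Real.sqrt (Real.log x) →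
      |(N b s x k : ℝ) / (x * g x k) - Ψ (Real.logb 3 (x / 2 ^ k))| ≤ ε) ∧
    (∃ A : ℝ, 0 < A ∧ ∀ x : ℝ, 2 ≤ x → ∀ k : ℕ, (N b s x k : ℝ) ≤ A * x / Real.sqrt (Real.log x)) ∧
    (∀ ε : ℝ, 0 < ε → ∃ X₀ : ℝ, ∀ x : ℝ, X₀ ≤ x →
      (∀ k : ℕ, (N b s x k : ℝ) ≤ (M + ε) * x / S x) ∧
      (∃ k : ℕ, |(k : ℝ) - μ * Real.log x| ≤ ε * Real.sqrt (Real.log x) ∧
        (M - ε) * x / S x ≤ (N b s x k : ℝ)) ∧
      ∀ k : ℕ, (∀ i : ℕ, N b s x i ≤ N b s x k) →
        |(k : ℝ) - μ * Real.log x| ≤ ε * Real.sqrt (Real.log x)) ∧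
    (∀ r : ℕ, 1 ≤ r → Tendsto (fun x : ℝ => (Tup b s r x : ℝ) * (S x ^ (r - 1) / x ^ r)) atTop
      (𝓝 (1 / Real.sqrt r * ∫ u in (0 : ℝ)..1, Ψ u ^ r))) :=
  Pool.Agent.R468.MG.pre_T hb hb3 hs

end Pool.Agent.Results.MP_dee342_nt.PreperiodLaw
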